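import Pool.Agent.Y72.Ko.Incl
import Pool.Agent.H97R3.Nontriv

set_option autoImplicit false

namespace Pool.Agent.Results.MP_215185_al.ClassP

open Pool.Agent.H97R3.Diag Pool.Agent.H97R3.PLm Pool.Agent.Y72.Ko

/-- There are a finite semigroup presentation `P`, a nonempty word `w` and a nontrivial element `x`
of the diagram group `D(P, w)` which is sent to `1` by every homomorphism from `D(P, w)` to the group
`PP` of all increasing homeomorphisms of `[0,1]` of Denjoy's class `P` (the logarithm of the
difference quotients has bounded variation), and by every homomorphism to `PL₊([0,1])`. The group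
`PP` contains all piecewise `C²` homeomorphisms, in particular `PL₊([0,1])`. -/
theorem result :
    (∃ (S : Type) (P : Pres S) (w : List S), Finite S ∧ P.rels.Finite ∧ w ≠ [] ∧
      ∃ x : DiagramGroup P w, x ≠ 1 ∧ (∀ φ : DiagramGroup P w →* PP, φ x = 1) ∧
        ∀ φ : DiagramGroup P w →* PLplus, φ x = 1) ∧
    (∀ f : unitInterval ≃o unitInterval, PC2 f → f ∈ PP) ∧
    (∀ f ∈ PLplus, ∃ g ∈ PP, ∀ x, g x = f x) := by
  refine ⟨⟨Pool.Agent.H97R3.Example.L, Pool.Agent.H97R3.Example.PP,
    Pool.Agent.H97R3.Example.w0, inferInstance, ?_, by decide, _,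
    Pool.Agent.H97R3.Example.word_ne, ?_, ?_⟩, fun f hf => pc2_mem hf,
    fun f hf => plplus_mem hf⟩
  · exact List.finite_toSet _
  · exact fun φ => killed Pool.Agent.H97R3.Example.isConfig φ
  · exact fun φ => Pool.Agent.H97R3.Config.killed Pool.Agent.H97R3.Example.isConfig φ

end Pool.Agent.Results.MP_215185_al.ClassP
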